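import Pool.Agent.helper75.AU.SpecR

namespace Pool.Agent.helper75.AU

open scoped Classical
open Pool.Agent.helper53.AU MulAction

/-- A homomorphism to a 2-group kills elements of odd order. -/
theorem II3_kill {A B : Type} [Group A] [Group B] (hB : IsPGroup 2 B) (f : A →* B) (x : A) (n : ℕ)
    (hn : ¬ 2 ∣ n) (hx : x ^ n = 1) : f x = 1 := by
  obtain ⟨m, hm⟩ := hB (f x)
  have h1 : orderOf (f x) ∣ n := orderOf_dvd_of_pow_eq_one (by rw [← map_pow, hx, map_one])
  have h2 : orderOf (f x) ∣ 2 ^ m := orderOf_dvd_of_pow_eq_one hm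
  have h3 : Nat.Coprime n (2 ^ m) := by
    refine Nat.Coprime.pow_right _ ?_
    rw [Nat.coprime_comm, Nat.Prime.coprime_iff_not_dvd Nat.prime_two]
    exact hn
  have h4 : orderOf (f x) = 1 := Nat.eq_one_of_dvd_coprimes h3 h1 h2
  exact orderOf_eq_one_iff.1 h4

/-- `(a)`: the Sylow 2-subgroups of `E` are not cyclic. -/
theorem II3_noncyc (h2 : II2_stmt) {Gam Om : Type} [Group Gam] [MulAction Gam Om]
    (L : Subgroup Gam) (c : Gam) (H : CtxII Gam Om L c) (E : Subgroup Gam) (hEn : E.Normal)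
    (hEL : E ≤ L) (hE0 : E ≠ ⊥) (P : Sylow 2 E) : ¬ IsCyclic P := by
  intro hP
  haveI := H.finG
  haveI := H.finO
  haveI := H.faithful
  haveI : Fact (Nat.Prime 2) := ⟨Nat.prime_two⟩
  have h2E := h2 Gam Om L c H E hEn hEL hE0
  have hmin : (Nat.card E).minFac = 2 := (Nat.minFac_eq_two_iff _).2 h2E
  set f := MonoidHom.transferSylow P (hP.normalizer_le_centralizer hmin) with hf
  have hodd : ¬ 2 ∣ Nat.card f.ker :=
    MonoidHom.not_dvd_card_ker_transferSylow P (hP.normalizer_le_centralizer hmin)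
  have hPp : IsPGroup 2 (P : Subgroup E) := P.2
  -- the kernel is normal in `Gam`
  have hKn : (f.ker.map E.subtype).Normal := by
    refine ⟨fun x hx γ => ?_⟩
    obtain ⟨y, hy, rfl⟩ := Subgroup.mem_map.1 hx
    have h3 : γ * E.subtype y * γ⁻¹ ∈ E := hEn.conj_mem _ y.2 γ
    refine Subgroup.mem_map.2 ⟨⟨_, h3⟩, MonoidHom.mem_ker.2 ?_, rfl⟩
    have h4 : y ^ (Nat.card f.ker) = 1 := by
      have := pow_card_eq_one' (x := (⟨y, hy⟩ : f.ker))
      exact congrArg Subtype.val this
    refine II3_kill hPp f _ _ hodd (Subtype.ext ?_)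
    show (γ * (y : Gam) * γ⁻¹) ^ (Nat.card f.ker) = 1
    rw [conj_pow, ← Subgroup.coe_pow, h4]
    simp
  have hK1 : f.ker.map E.subtype ≤ E := by
    intro x hx
    obtain ⟨y, hy, rfl⟩ := Subgroup.mem_map.1 hx
    exact y.2
  have hK0 : f.ker.map E.subtype = ⊥ := by
    by_contra hne
    have h5 := h2 Gam Om L c H _ hKn (hK1.trans hEL) hne
    rw [Nat.card_congr (Subgroup.equivMapOfInjective _ _ E.subtype_injective).symm.toEquiv] at h5
    exact hodd h5
  have hker : f.ker = ⊥ := by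
    rw [Subgroup.map_eq_bot_iff_of_injective _ E.subtype_injective] at hK0
    exact hK0
  have hEp : IsPGroup 2 E := IsPGroup.of_injective hPp f ((MonoidHom.ker_eq_bot_iff f).1 hker)
  -- a fixed point
  have h6 := hEp.card_modEq_card_fixedPoints Om
  have h7 : ¬ 2 ∣ Nat.card (fixedPoints E Om) := by
    intro h8
    refine H.odd ?_
    exact (Nat.modEq_zero_iff_dvd.1 (h6.trans (Nat.modEq_zero_iff_dvd.2 h8)))
  have h8 : Nonempty (fixedPoints E Om) := by
    by_contra hne
    rw [not_nonempty_iff] at hne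
    exact h7 (by rw [Nat.card_of_isEmpty]; exact dvd_zero 2)
  obtain ⟨ω, hω⟩ := h8
  refine hE0 ((Subgroup.eq_bot_iff_forall _).2 fun e he => ?_)
  refine eq_of_smul_eq_smul (α := Om) fun b => ?_
  obtain ⟨n, hn⟩ := H.tr ω b
  rw [one_smul, ← hn]
  have h9 : (c ^ n)⁻¹ * e * (c ^ n) ∈ E := by
    have := hEn.conj_mem e he (c ^ n)⁻¹
    rwa [inv_inv] at this
  have h10 : ((c ^ n)⁻¹ * e * (c ^ n)) • ω = ω := hω ⟨_, h9⟩
  rw [mul_smul, mul_smul, inv_smul_eq_iff] at h10
  exact h10

/-- A group with a homomorphism onto a group of even order with cyclic Sylow 2-subgroup has a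
homomorphism to a 2-group whose kernel has odd order in the quotient. -/
theorem II3_transfer {W : Type} [Group W] [Finite W] (Pb : Sylow 2 W) (hcyc : IsCyclic Pb)
    (hcard : 2 ∣ Nat.card W) : ∃ (B : Type) (_ : Group B) (f : W →* B), IsPGroup 2 B ∧
      ¬ 2 ∣ Nat.card f.ker := by
  haveI : Fact (Nat.Prime 2) := ⟨Nat.prime_two⟩
  have hmin : (Nat.card W).minFac = 2 := (Nat.minFac_eq_two_iff _).2 hcard
  exact ⟨Pb, inferInstance, MonoidHom.transferSylow Pb (hcyc.normalizer_le_centralizer hmin), Pb.2,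
    MonoidHom.not_dvd_card_ker_transferSylow Pb (hcyc.normalizer_le_centralizer hmin)⟩

/-- A homomorphism from `L`, generated by 3-elements, to a 2-group is trivial. -/
theorem II3_trivial {Gam B : Type} [Group Gam] [Group B] (L : Subgroup Gam)
    (hgen : Subgroup.closure {x : Gam | x ∈ L ∧ ∃ n : ℕ, x ^ (3 ^ n) = 1} = L)
    (hB : IsPGroup 2 B) (g : L →* B) : ∀ x (hx : x ∈ L), g ⟨x, hx⟩ = 1 := by
  have key : ∀ x (hx : x ∈ Subgroup.closure {x : Gam | x ∈ L ∧ ∃ n : ℕ, x ^ (3 ^ n) = 1}),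
      ∀ hxL : x ∈ L, g ⟨x, hxL⟩ = 1 := by
    intro x hx
    induction hx using Subgroup.closure_induction with
    | mem x hx =>
      intro hxL
      obtain ⟨-, n, hn⟩ := hx
      refine II3_kill hB g _ (3 ^ n) ?_ (Subtype.ext hn)
      intro h
      exact absurd (Nat.prime_two.dvd_of_dvd_pow h) (by norm_num)
    | one => intro hxL; exact map_one g
    | mul x y hx hy ihx ihy =>
      intro hxL
      rw [hgen] at hx hy
      have h1 : g ⟨x * y, hxL⟩ = g ⟨x, hx⟩ * g ⟨y, hy⟩ := map_mul g ⟨x, hx⟩ ⟨y, hy⟩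
      rw [h1, ihx hx, ihy hy, mul_one]
    | inv x hx ih =>
      intro hxL
      rw [hgen] at hx
      have h1 : g ⟨x⁻¹, hxL⟩ = (g ⟨x, hx⟩)⁻¹ := map_inv g ⟨x, hx⟩
      rw [h1, ih hx, inv_one]
  intro x hx
  exact key x (by rw [hgen]; exact hx) hx

/-- The quotient step. -/
theorem II3_quot {Gam W : Type} [Group Gam] [Group W] [Finite W] (L : Subgroup Gam)
    (hgen : Subgroup.closure {x : Gam | x ∈ L ∧ ∃ n : ℕ, x ^ (3 ^ n) = 1} = L)
    (π : L →* W) (hπ : Function.Surjective π) (Pb : Sylow 2 W) (hcyc : IsCyclic Pb)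
    (hcard : 2 ∣ Nat.card W) : False := by
  obtain ⟨B, _, f, hB, hf⟩ := II3_transfer Pb hcyc hcard
  have hker : f.ker = ⊤ := by
    rw [eq_top_iff]
    intro w _
    obtain ⟨⟨x, hx⟩, rfl⟩ := hπ w
    exact MonoidHom.mem_ker.2 (II3_trivial L hgen hB (f.comp π) x hx)
  rw [hker, Subgroup.card_top] at hf
  exact hf hcard

theorem II3 (h2 : II2_stmt) : II3_stmt := by
  intro Gam Om _ _ L c H E hEn hEL hE0 hdvd
  haveI := H.finG
  haveI := H.finO
  haveI : Fact (Nat.Prime 2) := ⟨Nat.prime_two⟩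
  have ha := II3_noncyc h2 L c H E hEn hEL hE0
  obtain ⟨PE⟩ : Nonempty (Sylow 2 E) := inferInstance
  set inc : E →* L := Subgroup.inclusion hEL with hinc
  have hinj : Function.Injective inc := Subgroup.inclusion_injective hEL
  have hQp : IsPGroup 2 ((PE : Subgroup E).map inc) := PE.2.map inc
  obtain ⟨S, hS⟩ := hQp.exists_le_sylow
  -- the cyclic subgroup of index at most 2
  have hSp : IsPGroup 2 ((S : Subgroup L).map L.subtype) := S.2.map L.subtype
  have hSL : (S : Subgroup L).map L.subtype ≤ L := by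
    intro x hx
    obtain ⟨y, hy, rfl⟩ := Subgroup.mem_map.1 hx
    exact y.2
  obtain ⟨A', hA'S, hA'c, hA'card⟩ := H.syl2 _ hSL hSp
  set A : Subgroup L := A'.subgroupOf L with hA
  have hAS : A ≤ S := by
    intro x hx
    have h1 : (x : Gam) ∈ A' := Subgroup.mem_subgroupOf.1 hx
    obtain ⟨y, hy, hyx⟩ := Subgroup.mem_map.1 (hA'S h1)
    have : y = x := Subtype.ext hyx
    rwa [← this]
  have hcardA : Nat.card A = Nat.card A' :=
    Nat.card_congr (Subgroup.subgroupOfEquivOfLe (hA'S.trans hSL)).toEquiv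
  have hcardS : Nat.card S = Nat.card ((S : Subgroup L).map L.subtype) :=
    Nat.card_congr (Subgroup.equivMapOfInjective _ _ L.subtype_injective).toEquiv
  have hAc : IsCyclic A :=
    isCyclic_of_surjective (Subgroup.subgroupOfEquivOfLe (hA'S.trans hSL)).symm.toMonoidHom
      (Subgroup.subgroupOfEquivOfLe (hA'S.trans hSL)).symm.surjective
  have hle : Nat.card S ≤ 2 * Nat.card A := by rw [hcardS, hcardA]; exact hA'card
  have hQA : ¬ ((PE : Subgroup E).map inc) ≤ A := by
    intro h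
    refine ha PE ?_
    have h3 : IsCyclic ((PE : Subgroup E).map inc) := by
      have h4 : Function.Injective (Subgroup.inclusion h) := Subgroup.inclusion_injective h
      exact isCyclic_of_injective _ h4
    exact isCyclic_of_surjective
      (Subgroup.equivMapOfInjective (PE : Subgroup E) inc hinj).symm.toMonoidHom
      (Subgroup.equivMapOfInjective (PE : Subgroup E) inc hinj).symm.surjective
  have hsup : A ⊔ (PE : Subgroup E).map inc = S := by
    have h1 : A ⊔ (PE : Subgroup E).map inc ≤ S := sup_le hAS hS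
    refine Subgroup.eq_of_le_of_card_ge h1 ?_
    have h3 : Nat.card A ∣ Nat.card (A ⊔ (PE : Subgroup E).map inc : Subgroup L) :=
      Subgroup.card_dvd_of_le le_sup_left
    have h4 : Nat.card A ≠ Nat.card (A ⊔ (PE : Subgroup E).map inc : Subgroup L) := by
      intro h5
      have h6 : A = A ⊔ (PE : Subgroup E).map inc :=
        Subgroup.eq_of_le_of_card_ge le_sup_left h5.ge
      exact hQA (h6 ▸ le_sup_right)
    obtain ⟨m, hm⟩ := h3
    have hpos : 0 < Nat.card (A ⊔ (PE : Subgroup E).map inc : Subgroup L) := Nat.card_pos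
    have hm2 : 2 ≤ m := by
      rcases Nat.lt_or_ge m 2 with h5 | h5
      · interval_cases m
        · omega
        · omega
      · exact h5
    calc Nat.card S ≤ 2 * Nat.card A := hle
      _ ≤ Nat.card A * m := by rw [mul_comm]; exact Nat.mul_le_mul_left _ hm2
      _ = _ := hm.symm
  -- the quotient
  haveI hn : (E.subgroupOf L).Normal := hEn.subgroupOf L
  set π := QuotientGroup.mk' (E.subgroupOf L) with hπ
  have hπs : Function.Surjective π := QuotientGroup.mk'_surjective _
  set Pb := S.mapSurjective hπs with hPb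
  have hPbc : (Pb : Subgroup (L ⧸ E.subgroupOf L)) = (S : Subgroup L).map π :=
    Sylow.coe_mapSurjective hπs S
  have hmapA : (S : Subgroup L).map π = A.map π := by
    rw [← hsup, Subgroup.map_sup]
    have h1 : ((PE : Subgroup E).map inc).map π = ⊥ := by
      rw [Subgroup.map_eq_bot_iff, hπ, QuotientGroup.ker_mk']
      intro x hx
      obtain ⟨y, hy, rfl⟩ := Subgroup.mem_map.1 hx
      exact Subgroup.mem_subgroupOf.2 y.2
    rw [h1, sup_bot_eq]
  have hcyc : IsCyclic Pb := by
    have h1 : IsCyclic (A.map π) :=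
      isCyclic_of_surjective (π.subgroupMap A) (π.subgroupMap_surjective A)
    have h2 : (Pb : Subgroup (L ⧸ E.subgroupOf L)) = A.map π := hPbc.trans hmapA
    show IsCyclic (Pb : Subgroup (L ⧸ E.subgroupOf L))
    rw [h2]
    exact h1
  have hcard : 2 ∣ Nat.card (L ⧸ E.subgroupOf L) := hdvd
  exact II3_quot L H.gen3 π hπs Pb hcyc hcard

end Pool.Agent.helper75.AU
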