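import Pool.Agent.helper75.AU.SpecR

namespace Pool.Agent.helper75.AU

open scoped Classical
open Pool.Agent.helper53.AU MulAction

/-- Sum of an invariant function over the cycles of a permutation. -/
theorem RC3_orb {S : Type} [Fintype S] (σ : Equiv.Perm S) (f : S → ℕ) (h : ℕ)
    (hf : ∀ s, f (σ s) = f s) (hd : ∀ (s : S) (n : ℕ), (σ ^ n) s = s → h ∣ n * f s) :
    h ∣ ∑ s, f s := by
  have hinv : ∀ (s t : S), t ∈ orbit (Subgroup.zpowers σ) s → f t = f s := by
    rintro s t ⟨⟨_, n, rfl⟩, rfl⟩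
    show f ((σ ^ n) s) = f s
    have hn : ∀ (n : ℕ) (s : S), f ((σ ^ n) s) = f s := by
      intro n
      induction n with
      | zero => intro s; simp
      | succ n ih =>
        intro s
        rw [pow_succ', Equiv.Perm.mul_apply, hf, ih]
    rcases Int.eq_nat_or_neg n with ⟨m, rfl | rfl⟩
    · rw [zpow_natCast]; exact hn m s
    · rw [zpow_neg, zpow_natCast]
      have h5 := hn m (((σ ^ m)⁻¹) s)
      have h6 : (σ ^ m) (((σ ^ m)⁻¹) s) = s := (σ ^ m).apply_symm_apply s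
      rw [h6] at h5
      exact h5.symm
  rw [← Finset.sum_fiberwise Finset.univ
    (fun s => (Quotient.mk'' s : Quotient (orbitRel (Subgroup.zpowers σ) S))) f]
  refine Finset.dvd_sum fun q _ => ?_
  induction q using Quotient.inductionOn' with
  | h s0 =>
    have h1 : (Finset.univ.filter fun s => (Quotient.mk'' s :
        Quotient (orbitRel (Subgroup.zpowers σ) S)) = Quotient.mk'' s0) =
        (orbit (Subgroup.zpowers σ) s0).toFinset := by
      ext s
      simp only [Finset.mem_filter, Finset.mem_univ, true_and, Set.mem_toFinset]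
      rw [Quotient.eq'']
      rfl
    rw [h1, Finset.sum_congr rfl (fun s hs => hinv s0 s (Set.mem_toFinset.1 hs)),
      Finset.sum_const, smul_eq_mul]
    refine hd s0 _ ?_
    have h2 : (orbit (Subgroup.zpowers σ) s0).toFinset.card =
        Function.minimalPeriod (fun s => σ • s) s0 := by
      rw [MulAction.minimalPeriod_eq_card, Set.toFinset_card]
    rw [h2]
    have h3 := Function.isPeriodicPt_minimalPeriod (fun s => σ • s) s0
    have h4 : ∀ n : ℕ, (fun s => σ • s)^[n] s0 = (σ ^ n) s0 := by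
      intro n
      induction n with
      | zero => rfl
      | succ n ih =>
        rw [Function.iterate_succ_apply', ih, pow_succ', Equiv.Perm.mul_apply]
        rfl
    rw [← h4]
    exact h3

theorem RC3_mem {k G X : Type} [Field k] [Group G] [Fintype G] [MulAction G X]
    [Fintype X] {g : ℕ} (R : Ram k G X g) (x : X) (s : G) (hs : s ∈ R.P x) :
    s • x = x ∧ (s = 1 ∨ 1 ≤ R.i x s) := by
  obtain ⟨y, hy, hys⟩ := Subgroup.mem_map.1 hs
  subst hys
  exact ⟨y.2, (R.tame x y).1 (MonoidHom.mem_ker.1 hy)⟩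

theorem RC3_mem' {k G X : Type} [Field k] [Group G] [Fintype G] [MulAction G X]
    [Fintype X] {g : ℕ} (R : Ram k G X g) (x : X) (s : G) (h1 : s • x = x)
    (h2 : s = 1 ∨ 1 ≤ R.i x s) : s ∈ R.P x :=
  Subgroup.mem_map.2 ⟨⟨s, h1⟩, MonoidHom.mem_ker.2 ((R.tame x ⟨s, h1⟩).2 h2), rfl⟩

theorem C3 : C3_stmt := by
  intro k G X _ _ _ _ _ _ g R x c hc
  obtain ⟨hcs, hord, hordθ, -⟩ := hc
  have hlead : ∀ s ∈ R.P x, s ≠ 1 → ∀ n : ℕ, (hh R x ∣ n * R.i x s ↔
      (c ^ n * s * (c ^ n)⁻¹ * s⁻¹ = 1 ∨ R.i x s < R.i x (c ^ n * s * (c ^ n)⁻¹ * s⁻¹))) := by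
    intro s hs hs1 n
    obtain ⟨h1, h2⟩ := RC3_mem R x s hs
    have h3 := R.lead x (⟨c, hcs⟩ ^ n) s h1 hs1 (h2.resolve_left hs1)
    rw [map_pow, ← pow_mul] at h3
    have h4 : ((⟨c, hcs⟩ ^ n : stabilizer G x) : G) = c ^ n := rfl
    rw [h4] at h3
    rw [← h3, ← hordθ]
    exact orderOf_dvd_iff_pow_eq_one
  have h1 : ∀ s ∈ R.P x, s ≠ 1 → ∀ n : ℕ, c ^ n * s = s * c ^ n → hh R x ∣ n * R.i x s := by
    intro s hs hs1 n hn
    refine (hlead s hs hs1 n).2 (Or.inl ?_)
    rw [hn]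
    group
  refine ⟨h1, ?_, fun s hs hs1 n hn => (hlead s hs hs1 n).1 hn, ?_⟩
  · -- sum over the orbits
    have hcx : c • x = x := hcs
    have hcix : c⁻¹ • x = x := inv_smul_eq_iff.2 hcx.symm
    have hi : ∀ s : G, R.i x (c * s * c⁻¹) = R.i x s := by
      intro s
      have := R.conj c s x
      rwa [hcx] at this
    have hmem : ∀ s : G, s ∈ R.P x ∧ s ≠ 1 → c * s * c⁻¹ ∈ R.P x ∧ c * s * c⁻¹ ≠ 1 := by
      rintro s ⟨hs, hs1⟩
      obtain ⟨h3, h4⟩ := RC3_mem R x s hs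
      refine ⟨RC3_mem' R x _ ?_ (Or.inr ?_), fun h => hs1 ?_⟩
      · rw [mul_smul, mul_smul, hcix, h3, hcx]
      · rw [hi]; exact h4.resolve_left hs1
      · have h5 : s = c⁻¹ * (c * s * c⁻¹) * c := by group
        rw [h5, h]; group
    have hmem' : ∀ s : G, s ∈ R.P x ∧ s ≠ 1 → c⁻¹ * s * c ∈ R.P x ∧ c⁻¹ * s * c ≠ 1 := by
      rintro s ⟨hs, hs1⟩
      obtain ⟨h3, h4⟩ := RC3_mem R x s hs
      refine ⟨RC3_mem' R x _ ?_ (Or.inr ?_), fun h => hs1 ?_⟩
      · rw [mul_smul, mul_smul, hcx, h3, hcix]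
      · have h6 := hi (c⁻¹ * s * c)
        have h7 : c * (c⁻¹ * s * c) * c⁻¹ = s := by group
        rw [h7] at h6
        rw [← h6]; exact h4.resolve_left hs1
      · have h5 : s = c * (c⁻¹ * s * c) * c⁻¹ := by group
        rw [h5, h]; group
    let σ : Equiv.Perm {s : G // s ∈ R.P x ∧ s ≠ 1} :=
      { toFun := fun s => ⟨c * s.1 * c⁻¹, hmem s.1 s.2⟩
        invFun := fun s => ⟨c⁻¹ * s.1 * c, hmem' s.1 s.2⟩
        left_inv := fun s => Subtype.ext (by
          show c⁻¹ * (c * s.1 * c⁻¹) * c = s.1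
          group)
        right_inv := fun s => Subtype.ext (by
          show c * (c⁻¹ * s.1 * c) * c⁻¹ = s.1
          group) }
    have hσ : ∀ (n : ℕ) (s : {s : G // s ∈ R.P x ∧ s ≠ 1}),
        ((σ ^ n) s).1 = c ^ n * s.1 * (c ^ n)⁻¹ := by
      intro n
      induction n with
      | zero => intro s; simp
      | succ n ih =>
        intro s
        rw [pow_succ', Equiv.Perm.mul_apply]
        show c * ((σ ^ n) s).1 * c⁻¹ = _
        rw [ih, pow_succ']
        group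
    have hT : R.T x = ∑ s : {s : G // s ∈ R.P x ∧ s ≠ 1}, R.i x s.1 := by
      unfold Ram.T
      exact Finset.sum_subtype _ (fun s => by simp) _
    rw [hT]
    refine RC3_orb σ _ _ (fun s => hi s.1) fun s n hn => ?_
    refine h1 s.1 s.2.1 s.2.2 n ?_
    have h5 := hσ n s
    rw [hn] at h5
    nth_rewrite 2 [h5]
    group
  · intro m hm
    unfold Ram.T
    rw [Nat.cast_sum]
    refine Finset.sum_le_sum fun s hs => ?_
    rw [Finset.mem_filter] at hs
    obtain ⟨-, hsP, hs1⟩ := hs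
    obtain ⟨hm0, hmc⟩ := hm s hsP hs1
    have h3 := h1 s hsP hs1 (m s) hmc
    have h4 := (RC3_mem R x s hsP).2.resolve_left hs1
    have h5 : hh R x ≤ m s * R.i x s := Nat.le_of_dvd (Nat.mul_pos hm0 h4) h3
    have hm0' : (0 : ℚ) < m s := by exact_mod_cast hm0
    rw [div_le_iff₀ hm0']
    have h6 : ((hh R x : ℕ) : ℚ) ≤ ((m s * R.i x s : ℕ) : ℚ) := by exact_mod_cast h5
    rw [Nat.cast_mul] at h6
    linarith [mul_comm (m s : ℚ) (R.i x s : ℚ)]

end Pool.Agent.helper75.AU
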